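import Mathlib
import Pool.Agent.Helper212.ConjBorel

/-!
# Conjugacy in the full group of an ergodic automorphism is a countable intersection of
countable unions of closed sets

Let `T₀` be an ergodic automorphism of a standard atomless probability space and let `[T₀]` be its
full group with the uniform metric.  The set of pairs of elements of `[T₀]` which are conjugate
in `[T₀]` is of class `Π⁰₃`.

The conjugacy criterion of `Pool.Agent.Helper212.ConjBorel` says that `(S, T)` is a conjugate pair
iff a fixed vector lies in the closed span of countably many vectors depending on `(S, T)`.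
Those vectors are limits of sequences of vectors depending continuously on `(S, T)`, and every
approximation by a rational combination can be checked along the sequences, up to a closed
condition from some index on.
-/

open MeasureTheory Filter Topology

namespace Pool.Agent.Results.MP_190226_lc.PiThree

open Pool.Agent.Helper212 Pool.Agent.Helper212.ConjBorel

variable {X : Type*} [MeasurableSpace X] [StandardBorelSpace X]
variable {μ : Measure X} [IsProbabilityMeasure μ] {T₀ : X ≃ᵐ X} {h : Ergodic T₀ μ}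
variable [NullSingletonClass μ]

/-- The approximations of the test vectors. -/
noncomputable def famN (gs : ℕ → PreFull h) (N : ℕ) (p : PreFull h × PreFull h)
    (j : ℕ × ℤ × Option ℚ) : HP μ :=
  vvec h j.2.1 j.2.2 (wpos (avg (gs j.1) N p))

theorem continuous_famN (gs : ℕ → PreFull h) (N : ℕ) (j : ℕ × ℤ × Option ℚ) :
    Continuous fun p : PreFull h × PreFull h => famN gs N p j :=
  ((continuous_vvec j.2.1 j.2.2).comp continuous_wpos).comp (continuous_avg (gs j.1) N)

theorem tendsto_famN (gs : ℕ → PreFull h) (p : PreFull h × PreFull h)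
    (j : ℕ × ℤ × Option ℚ) :
    Tendsto (fun N => famN gs N p j) atTop (𝓝 (fam gs p j)) := by
  obtain ⟨S, T⟩ := p
  exact (((continuous_vvec j.2.1 j.2.2).comp continuous_wpos).tendsto _).comp
    (tendsto_avg (gs j.1) S T)

theorem continuous_combN (gs : ℕ → PreFull h) (N : ℕ) (q : (ℕ × ℤ × Option ℚ) →₀ ℚ) :
    Continuous fun p : PreFull h × PreFull h => ratComb (famN gs N p) q := by
  unfold ratComb Finsupp.sum
  exact continuous_finsetSum _ fun j _ => (continuous_famN gs N j).const_smul (q j : ℝ)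

theorem tendsto_combN (gs : ℕ → PreFull h) (p : PreFull h × PreFull h)
    (q : (ℕ × ℤ × Option ℚ) →₀ ℚ) :
    Tendsto (fun N => ratComb (famN gs N p) q) atTop (𝓝 (ratComb (fam gs p) q)) := by
  unfold ratComb Finsupp.sum
  exact tendsto_finsetSum _ fun j _ => (tendsto_famN gs p j).const_smul (q j : ℝ)

/-- The closed conditions. -/
def D (gs : ℕ → PreFull h) (n : ℕ) (c : ((ℕ × ℤ × Option ℚ) →₀ ℚ) × ℕ) :
    Set (PreFull h × PreFull h) :=
  {p | ∀ N, c.2 ≤ N → ‖zvec μ - ratComb (famN gs N p) c.1‖ ≤ 1 / ((n : ℝ) + 1)}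

theorem isClosed_D (gs : ℕ → PreFull h) (n : ℕ) (c : ((ℕ × ℤ × Option ℚ) →₀ ℚ) × ℕ) :
    IsClosed (D gs n c) := by
  have : D gs n c = ⋂ N : ℕ, ⋂ _ : c.2 ≤ N,
      {p | ‖zvec μ - ratComb (famN gs N p) c.1‖ ≤ 1 / ((n : ℝ) + 1)} := by
    ext p
    simp only [D, Set.mem_ofPred_eq, Set.mem_iInter]
  rw [this]
  refine isClosed_iInter fun N => isClosed_iInter fun _ => ?_
  exact isClosed_le (continuous_const.sub (continuous_combN gs N c.1)).norm continuous_const

theorem crit_iff (gs : ℕ → PreFull h) (p : PreFull h × PreFull h) :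
    Crit gs p ↔ ∀ n : ℕ, ∃ c : ((ℕ × ℤ × Option ℚ) →₀ ℚ) × ℕ, p ∈ D gs n c := by
  rw [Crit, mem_closure_span_iff]
  constructor
  · intro H n
    obtain ⟨q, hq⟩ := H n
    have ht : Tendsto (fun N => ‖zvec μ - ratComb (famN gs N p) q‖) atTop
        (𝓝 ‖zvec μ - ratComb (fam gs p) q‖) :=
      (tendsto_const_nhds.sub (tendsto_combN gs p q)).norm
    have he := ht.eventually (gt_mem_nhds hq)
    obtain ⟨N0, hN0⟩ := eventually_atTop.1 he
    exact ⟨(q, N0), fun N hN => (hN0 N hN).le⟩
  · intro H n
    obtain ⟨⟨q, N0⟩, hc⟩ := H (n + 1)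
    refine ⟨q, ?_⟩
    have ht : Tendsto (fun N => ‖zvec μ - ratComb (famN gs N p) q‖) atTop
        (𝓝 ‖zvec μ - ratComb (fam gs p) q‖) :=
      (tendsto_const_nhds.sub (tendsto_combN gs p q)).norm
    have hle : ‖zvec μ - ratComb (fam gs p) q‖ ≤ 1 / (((n + 1 : ℕ) : ℝ) + 1) :=
      le_of_tendsto ht (eventually_atTop.2 ⟨N0, fun N hN => hc N hN⟩)
    refine hle.trans_lt ?_
    have h1 : (0 : ℝ) < (n : ℝ) + 1 := by positivity
    have h2 : (n : ℝ) + 1 < ((n + 1 : ℕ) : ℝ) + 1 := by push_cast; linarith
    exact one_div_lt_one_div_of_lt h1 h2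

/-- The conjugacy relation pulled back to the group of representatives. -/
theorem conj_iff (h : Ergodic T₀ μ) : ∃ gs : ℕ → PreFull h, ∀ A B : PreFull h,
    ((SeparationQuotient.mk A, SeparationQuotient.mk B) ∈ conjRel h ↔ Crit gs (B, A)) := by
  obtain ⟨gs, hgs⟩ := exists_dense_seq h
  refine ⟨gs, fun A B => ?_⟩
  constructor
  · rintro ⟨U, hU⟩
    obtain ⟨V, rfl⟩ := SeparationQuotient.surjective_mk U
    change SeparationQuotient.mk A = SeparationQuotient.mk V * SeparationQuotient.mk B *
      (SeparationQuotient.mk V)⁻¹ at hU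
    rw [← SeparationQuotient.mk_inv, ← SeparationQuotient.mk_mul, ← SeparationQuotient.mk_mul,
      SeparationQuotient.mk_eq_mk, Metric.inseparable_iff] at hU
    refine crit_of_conj gs hgs B A V ?_
    have h2 : μ {x | A.1 x ≠ (V * B * V⁻¹).1 x} = 0 := by
      rw [PreFull.dist_def, measureReal_eq_zero_iff] at hU
      exact hU
    have h3 : ∀ᵐ x ∂μ, A.1 x = (V * B * V⁻¹).1 x := h2
    filter_upwards [V.measurePreserving.quasiMeasurePreserving.ae h3] with x hx
    rw [hx]
    simp
  · intro hc
    obtain ⟨V, hV⟩ := conj_of_crit gs B A hc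
    refine ⟨SeparationQuotient.mk V, ?_⟩
    change SeparationQuotient.mk A = SeparationQuotient.mk V * SeparationQuotient.mk B *
      (SeparationQuotient.mk V)⁻¹
    rw [← SeparationQuotient.mk_inv, ← SeparationQuotient.mk_mul, ← SeparationQuotient.mk_mul,
      SeparationQuotient.mk_eq_mk, Metric.inseparable_iff]
    rw [PreFull.dist_def, measureReal_eq_zero_iff]
    have h3 : ∀ᵐ x ∂μ, A.1 x = (V * B * V⁻¹).1 x := by
      filter_upwards [(V⁻¹).measurePreserving.quasiMeasurePreserving.ae hV] with x hx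
      simp only [PreFull.mul_val, PreFull.inv_val, Equiv.Perm.mul_apply] at hx ⊢
      rw [hx]
      simp
    exact h3

theorem conjRel_piThree (h : Ergodic T₀ μ) :
    ∃ C : ℕ → ℕ → Set (FullGroup h × FullGroup h), (∀ n m, IsClosed (C n m)) ∧
      conjRel h = ⋂ n, ⋃ m, C n m := by
  obtain ⟨gs, hgs⟩ := conj_iff h
  let q : PreFull h × PreFull h → FullGroup h × FullGroup h :=
    Prod.map SeparationQuotient.mk SeparationQuotient.mk
  have hq : Topology.IsInducing q :=
    SeparationQuotient.isInducing_mk.prodMap SeparationQuotient.isInducing_mk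
  have hqs : Function.Surjective q :=
    SeparationQuotient.surjective_mk.prodMap SeparationQuotient.surjective_mk
  -- the closed conditions in the quotient
  have hcl : ∀ n c, ∃ F : Set (FullGroup h × FullGroup h), IsClosed F ∧
      q ⁻¹' F = Prod.swap ⁻¹' D gs n c := fun n c =>
    hq.isClosed_iff.1 ((isClosed_D gs n c).preimage continuous_swap)
  choose F hF hFD using hcl
  have : Countable (((ℕ × ℤ × Option ℚ) →₀ ℚ) × ℕ) := inferInstance
  obtain ⟨e, he⟩ := exists_surjective_nat (((ℕ × ℤ × Option ℚ) →₀ ℚ) × ℕ)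
  refine ⟨fun n m => F n (e m), fun n m => hF n (e m), ?_⟩
  ext p
  obtain ⟨⟨A, B⟩, rfl⟩ := hqs p
  have h1 : q (A, B) ∈ conjRel h ↔ Crit gs (B, A) := hgs A B
  rw [h1, crit_iff, Set.mem_iInter]
  refine forall_congr' fun n => ?_
  rw [Set.mem_iUnion]
  have h2 : ∀ c, (B, A) ∈ D gs n c ↔ q (A, B) ∈ F n c := by
    intro c
    have := Set.ext_iff.1 (hFD n c) (A, B)
    exact this.symm
  constructor
  · rintro ⟨c, hc⟩
    obtain ⟨m, rfl⟩ := he c
    exact ⟨m, (h2 _).1 hc⟩
  · rintro ⟨m, hm⟩
    exact ⟨e m, (h2 _).2 hm⟩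

/-- **Main theorem.** Let `T₀` be an ergodic automorphism of a standard atomless probability space.
The conjugacy relation of its full group `[T₀]`, equipped with the uniform metric, is a Borel
subset of `[T₀] × [T₀]`; in fact it is a countable intersection of countable unions of closed
sets. -/
theorem result {X : Type*} [MeasurableSpace X] [StandardBorelSpace X] {μ : Measure X}
    [IsProbabilityMeasure μ] [NullSingletonClass μ] {T₀ : X ≃ᵐ X} (h : Ergodic T₀ μ) :
    ∃ C : ℕ → ℕ → Set (FullGroup h × FullGroup h), (∀ n m, IsClosed (C n m)) ∧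
      {p : FullGroup h × FullGroup h | ∃ U : FullGroup h, p.1 = U * p.2 * U⁻¹} =
        ⋂ n, ⋃ m, C n m :=
  conjRel_piThree h

end Pool.Agent.Results.MP_190226_lc.PiThree
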